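import Pool.Agent.Helper73.LL.Goals

/-! Nearly uniform weights rarely have many fixed points. -/

namespace Pool.Agent.Helper51.LL

open Matrix Equiv Pool.Agent.Helper15.An Pool.Agent.Helper6.W Pool.Agent.Helper73.LL
open scoped ComplexOrder

variable {n : ℕ}

theorem count_emb (g : Perm (Fin n)) (r : ℕ) :
    (Finset.univ.filter fun a : Fin r ↪ Fin n => ∀ i, g (a i) = a i).card =
      (fixc g).descFactorial r := by
  classical
  rw [← Fintype.card_subtype]
  have e : {a : Fin r ↪ Fin n // ∀ i, g (a i) = a i} ≃ (Fin r ↪ {x : Fin n // g x = x}) :=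
    { toFun := fun a => ⟨fun i => ⟨a.1 i, a.2 i⟩, fun i j h => a.1.injective (by
        simpa using congrArg Subtype.val h)⟩
      invFun := fun b => ⟨⟨fun i => (b i).1, fun i j h => b.injective (Subtype.ext h)⟩,
        fun i => (b i).2⟩
      left_inv := fun a => by ext i; rfl
      right_inv := fun b => by ext i; rfl }
  rw [Fintype.card_congr e, Fintype.card_embedding_eq, Fintype.card_fin, Fintype.card_subtype]
  rfl

theorem desc_ge {f F₀ r : ℕ} (h : 2 * r ≤ F₀) (hf : F₀ ≤ f) :
    ((F₀ : ℝ) / 2) ^ r ≤ (f.descFactorial r : ℝ) := by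
  have h1 : (f + 1 - r) ^ r ≤ f.descFactorial r := Nat.pow_sub_le_descFactorial f r
  have h2 : ((f + 1 - r : ℕ) : ℝ) ^ r ≤ (f.descFactorial r : ℝ) := by exact_mod_cast h1
  refine le_trans ?_ h2
  refine pow_le_pow_left₀ (by positivity) ?_ r
  rw [Nat.cast_sub (by omega)]
  push_cast
  have h3 : (2 : ℝ) * r ≤ F₀ := by exact_mod_cast h
  have h4 : (F₀ : ℝ) ≤ f := by exact_mod_cast hf
  linarith

theorem law1 : S_LAW1 := by
  intro n F κ r F₀ δ hr hrF h0 h1 h2 hδ hδ2 hW
  classical
  have key : ∑ g : Perm (Fin n), κ g * ((fixc g).descFactorial r : ℝ) ≤ 2 := by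
    have e1 : ∑ g : Perm (Fin n), κ g * ((fixc g).descFactorial r : ℝ) =
        ∑ a : Fin r ↪ Fin n,
          ∑ g ∈ Finset.univ.filter (fun g : Perm (Fin n) => ∀ i, g (a i) = a i), κ g := by
      calc ∑ g : Perm (Fin n), κ g * ((fixc g).descFactorial r : ℝ)
          = ∑ g : Perm (Fin n), ∑ a : Fin r ↪ Fin n,
              (if ∀ i, g (a i) = a i then κ g else 0) := by
            refine Finset.sum_congr rfl fun g _ => ?_
            rw [← count_emb, ← Finset.sum_filter, Finset.sum_const, nsmul_eq_mul, mul_comm]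
        _ = ∑ a : Fin r ↪ Fin n, ∑ g : Perm (Fin n),
              (if ∀ i, g (a i) = a i then κ g else 0) := Finset.sum_comm
        _ = _ := by
            refine Finset.sum_congr rfl fun a _ => ?_
            rw [Finset.sum_filter]
    rw [e1]
    have e2 : ∀ a : Fin r ↪ Fin n,
        ∑ g ∈ Finset.univ.filter (fun g : Perm (Fin n) => ∀ i, g (a i) = a i), κ g ≤
          1 / (n.descFactorial r : ℝ) + δ := fun a =>
      wise_of_levels F κ h1 h2 r hr δ hδ hW r le_rfl a a
    have hd : (0 : ℝ) < (n.descFactorial r : ℝ) := by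
      have : 0 < n.descFactorial r := Nat.descFactorial_pos.2 (by omega)
      exact_mod_cast this
    calc _ ≤ ∑ _a : Fin r ↪ Fin n, (1 / (n.descFactorial r : ℝ) + δ) :=
          Finset.sum_le_sum fun a _ => e2 a
      _ = (n.descFactorial r : ℝ) * (1 / (n.descFactorial r : ℝ) + δ) := by
          rw [Finset.sum_const, nsmul_eq_mul, Finset.card_univ, Fintype.card_embedding_eq,
            Fintype.card_fin, Fintype.card_fin]
      _ ≤ 2 := by
          rw [mul_add, mul_one_div_cancel hd.ne']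
          linarith [mul_comm δ (n.descFactorial r : ℝ)]
  rcases Nat.eq_zero_or_pos r with rfl | hr0
  · simp only [pow_zero, mul_one]
    calc _ ≤ ∑ g : Perm (Fin n), κ g := Finset.sum_le_sum fun g _ => by
          split_ifs
          · simp
          · simpa using h0 g
      _ ≤ 2 := by rw [h1]; norm_num
  have hF0 : (0 : ℝ) < F₀ := by
    have : 0 < F₀ := by omega
    exact_mod_cast this
  have hc : (0 : ℝ) < ((F₀ : ℝ) / 2) ^ r := by positivity
  have key2 : (∑ g : Perm (Fin n), κ g * (if F₀ ≤ fixc g then (1 : ℝ) else 0)) *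
      ((F₀ : ℝ) / 2) ^ r ≤ 2 := by
    refine le_trans ?_ key
    rw [Finset.sum_mul]
    refine Finset.sum_le_sum fun g _ => ?_
    rw [mul_assoc]
    refine mul_le_mul_of_nonneg_left ?_ (h0 g)
    split_ifs with h
    · rw [one_mul]; exact desc_ge hrF h
    · rw [zero_mul]; positivity
  rw [← le_div_iff₀ hc] at key2
  refine key2.trans (le_of_eq ?_)
  rw [div_eq_mul_inv, ← inv_pow, inv_div]

theorem conv_sum {M : Type} [AddCommMonoid M] [Module ℝ M] (κ : Perm (Fin n) → ℝ)
    (φ : Perm (Fin n) → M) :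
    ∑ w : Perm (Fin n), (∑ g : Perm (Fin n), κ g * κ (w * g⁻¹)) • φ w =
      ∑ g : Perm (Fin n), ∑ h : Perm (Fin n), (κ g * κ h) • φ (h * g) := by
  calc _ = ∑ w : Perm (Fin n), ∑ g : Perm (Fin n), (κ g * κ (w * g⁻¹)) • φ w :=
        Finset.sum_congr rfl fun w _ => Finset.sum_smul
    _ = ∑ g : Perm (Fin n), ∑ w : Perm (Fin n), (κ g * κ (w * g⁻¹)) • φ w := Finset.sum_comm
    _ = _ := by
        refine Finset.sum_congr rfl fun g _ => ?_
        refine Fintype.sum_equiv (Equiv.mulRight g⁻¹) _ _ fun w => ?_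
        simp

theorem law2 : S_LAW2 := by
  intro n F κ r F₀ δ hr hrF h0 h1 h2 hδ hδ2 hW
  have hs := conv_sum κ (fun w => if F₀ ≤ fixc w then (1 : ℝ) else 0)
  have h := law1 n F (fun w => ∑ g : Perm (Fin n), κ g * κ (w * g⁻¹)) r F₀ δ hr hrF
    (fun w => Finset.sum_nonneg fun g _ => mul_nonneg (h0 _) (h0 _)) ?_ ?_ hδ hδ2 ?_
  · simpa only [smul_eq_mul] using hs.symm.le.trans h
  · have := conv_sum κ (fun _ => (1 : ℝ))
    simp only [smul_eq_mul, mul_one] at this
    rw [this]
    calc ∑ g, ∑ h, κ g * κ h = (∑ g, κ g) * ∑ h, κ h := by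
          rw [Finset.sum_mul_sum]
      _ = 1 := by rw [h1]; norm_num
  · intro w hw
    refine Finset.sum_eq_zero fun g _ => ?_
    by_cases hg : g ∈ Alt n
    · rw [h2 (w * g⁻¹), mul_zero]
      intro hwg
      exact hw (by simpa using mul_mem hwg hg)
    · rw [h2 g hg, zero_mul]
  · intro i hi1 hi2
    have e : wop (F.ρ i) (fun w => ∑ g : Perm (Fin n), κ g * κ (w * g⁻¹)) =
        wop (F.ρ i) κ * wop (F.ρ i) κ := by
      unfold wop
      rw [conv_sum, Finset.sum_mul_sum, Finset.sum_comm]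
      refine Finset.sum_congr rfl fun g _ => Finset.sum_congr rfl fun h _ => ?_
      rw [map_mul, smul_mul_smul_comm, mul_comm (κ g)]
    rw [e]
    exact hW i hi1 hi2

end Pool.Agent.Helper51.LL
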