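import Pool.Agent.Helper73.LL.Goals

/-! Side conditions of the numerical context. -/

namespace Pool.Agent.Helper51.LL

open Pool.Agent.Helper73.LL

theorem exp_sq_half {y : ℝ} (hy : 0 ≤ y) : y ^ 2 / 2 ≤ Real.exp y := by
  have := Real.quadratic_le_exp_of_nonneg hy
  linarith

theorem pow_one_sub_ge {s X : ℝ} (hs0 : 0 ≤ s) (hs : s < 1) (hX0 : 0 ≤ X) (hX1 : X ≤ 1) (m : ℕ) :
    Real.exp (-(X * (m * (-Real.log (1 - s))))) ≤ (1 - X * s) ^ m := by
  have h1 : (1 - s) ^ X ≤ 1 - X * s := by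
    have := rpow_one_add_le_one_add_mul_self (s := -s) (by linarith) hX0 hX1
    have e1 : (1 + -s : ℝ) = 1 - s := by ring
    rw [e1] at this
    linarith
  have h2 : (1 - s) ^ X = Real.exp (X * Real.log (1 - s)) := by
    rw [Real.rpow_def_of_pos (by linarith), mul_comm]
  calc Real.exp (-(X * (m * (-Real.log (1 - s))))) = (Real.exp (X * Real.log (1 - s))) ^ m := by
        rw [← Real.exp_nat_mul]; congr 1; ring
    _ ≤ (1 - X * s) ^ m := by
        rw [← h2]
        exact pow_le_pow_left₀ (Real.rpow_nonneg (by linarith) _) h1 m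

section
variable {n : ℕ} {L ell e θ x : ℝ} {p r N q l r1 F1 F2 f : ℕ}

theorem NC_theta_pos (h : NC n L ell e θ x p r N q l r1 F1 F2 f) : 0 < θ := by
  have h1 := h.hθ
  have h2 := h.hell
  have h3 := h.hL
  by_contra hc
  push Not at hc
  nlinarith

theorem NC_p_large (h : NC n L ell e θ x p r N q l r1 F1 F2 f) : 256 * L < p * ell := by
  have h1 := h.hp2
  have h2 := h.hell
  have h3 := h.hL
  have h4 := h.hell2
  have h5 : Real.exp (L / 2) ≤ Real.exp (L - ell) := Real.exp_le_exp.2 (by linarith)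
  have h6 := exp_sq_half (y := L / 2) (by linarith)
  have h7 : L ^ 2 / 16 ≤ p := by nlinarith
  have h8 : L * 1000 ≤ (p : ℝ) := by nlinarith
  nlinarith

theorem NC_r1_pos (h : NC n L ell e θ x p r N q l r1 F1 F2 f) : 1 ≤ r1 := by
  by_contra hc
  have h0 : r1 = 0 := by omega
  have h1 := h.hr2
  rw [h0] at h1
  have h2 := NC_p_large h
  have h3 : (N : ℝ) * p ≤ 4 * r := by exact_mod_cast h.hN2
  have h4 : (4 : ℝ) ≤ N := by exact_mod_cast h.hN4
  have h5 := h.hell
  have h6 : (N : ℝ) * p * ell ≤ 4 * r * ell := mul_le_mul_of_nonneg_right h3 (by linarith)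
  have h7 : (N : ℝ) * (256 * L) < N * (p * ell) := mul_lt_mul_of_pos_left h2 (by linarith)
  push_cast at h1
  nlinarith

theorem NC_r1_small (h : NC n L ell e θ x p r N q l r1 F1 F2 f) : (4 : ℝ) * r1 ≤ p := by
  have h1 := h.hr1
  have h2 : (2 : ℝ) * r ≤ N * p := by exact_mod_cast h.hN1
  have h3 : (4 : ℝ) ≤ N := by exact_mod_cast h.hN4
  have h4 := h.hell
  have h5 := h.hell2
  have h6 := h.hL
  have h7 : (2 : ℝ) * (64 * L * N * r1) ≤ N * p * ell := by
    have := mul_le_mul_of_nonneg_right h2 (by linarith : (0 : ℝ) ≤ ell)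
    linarith
  have h8 : (128 : ℝ) * L * r1 ≤ p * ell := by
    have h9 : (N : ℝ) * (128 * L * r1) ≤ N * (p * ell) := by linarith
    exact le_of_mul_le_mul_left h9 (by linarith)
  have h10 : (p : ℝ) * ell ≤ p * (L / 4000) :=
    mul_le_mul_of_nonneg_left (by linarith) (Nat.cast_nonneg p)
  have h11 : L * (128 * (r1 : ℝ)) ≤ L * (p / 4000) := by linarith
  have h12 : 128 * (r1 : ℝ) ≤ p / 4000 := le_of_mul_le_mul_left h11 (by linarith)
  have h13 : (0 : ℝ) ≤ r1 := Nat.cast_nonneg _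
  linarith

theorem NC_N_le (h : NC n L ell e θ x p r N q l r1 F1 F2 f) :
    (N : ℝ) ≤ 8 * Real.exp (ell / 4) := by
  have h3 : (N : ℝ) * p ≤ 4 * r := by exact_mod_cast h.hN2
  have h4 := h.hr
  have h5 := h.hp2
  have h6 : Real.exp (L - 3 / 4 * ell) = Real.exp (L - ell) * Real.exp (ell / 4) := by
    rw [← Real.exp_add]; congr 1; ring
  have h7 : (N : ℝ) * Real.exp (L - ell) ≤ N * (2 * p) :=
    mul_le_mul_of_nonneg_left h5 (Nat.cast_nonneg _)
  rw [h6] at h4
  have h8 : Real.exp (L - ell) * N ≤ Real.exp (L - ell) * (8 * Real.exp (ell / 4)) := by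
    linarith
  exact le_of_mul_le_mul_left h8 (Real.exp_pos _)

theorem NC_side (h : NC n L ell e θ x p r N q l r1 F1 F2 f) {X : ℝ} (hX0 : 0 ≤ X)
    (hX1 : X ≤ 1 - 23 / 24 * θ) :
    16 * (2 / (F2 : ℝ)) ^ r1 ≤ (1 - X * e / 2) ^ (2 * l) := by
  have hθ := NC_theta_pos h
  have he := h.he
  have he1 := h.he1
  have hL := h.hL
  have hell := h.hell
  have hr1 : (1 : ℝ) ≤ r1 := by exact_mod_cast NC_r1_pos h
  have h1 := pow_one_sub_ge (s := e / 2) (X := X) (by linarith) (by linarith) hX0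
    (by linarith) (2 * l)
  have e1 : X * (e / 2) = X * e / 2 := by ring
  rw [e1] at h1
  refine le_trans ?_ h1
  have hF2 : 0 < (F2 : ℝ) := lt_of_lt_of_le (Real.exp_pos _) h.hF2
  have h2 : 2 / (F2 : ℝ) ≤ Real.exp (1 - (L - 3 / 4 * ell)) := by
    rw [div_le_iff₀ hF2]
    have h3 := h.hF2
    have h4 : (2 : ℝ) ≤ Real.exp 1 := by
      have := Real.add_one_le_exp (1 : ℝ)
      linarith
    calc (2 : ℝ) ≤ Real.exp 1 := h4
      _ = Real.exp (1 - (L - 3 / 4 * ell)) * Real.exp (L - 3 / 4 * ell) := by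
          rw [← Real.exp_add]; congr 1; ring
      _ ≤ _ := mul_le_mul_of_nonneg_left h3 (Real.exp_pos _).le
  have h3 : (2 / (F2 : ℝ)) ^ r1 ≤ Real.exp (r1 * (1 - (L - 3 / 4 * ell))) := by
    rw [Real.exp_nat_mul]
    exact pow_le_pow_left₀ (by positivity) h2 r1
  have h16 : (16 : ℝ) ≤ Real.exp 4 := by
    have h5 : (2 : ℝ) ≤ Real.exp 1 := by
      have := Real.add_one_le_exp (1 : ℝ)
      linarith
    calc (16 : ℝ) = 2 ^ 4 := by norm_num
      _ ≤ Real.exp 1 ^ 4 := pow_le_pow_left₀ (by norm_num) h5 4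
      _ = Real.exp 4 := by rw [← Real.exp_nat_mul]; norm_num
  calc 16 * (2 / (F2 : ℝ)) ^ r1 ≤ Real.exp 4 * Real.exp (r1 * (1 - (L - 3 / 4 * ell))) :=
        mul_le_mul h16 h3 (by positivity) (Real.exp_pos _).le
    _ = Real.exp (4 + r1 * (1 - (L - 3 / 4 * ell))) := by rw [← Real.exp_add]
    _ ≤ _ := by
        apply Real.exp_le_exp.2
        have hl2 := h.hl2
        have heps : -Real.log (1 - e / 2) ≤ 1 := by
          have h6 : Real.log (1 - e / 2) ≥ 1 - (1 - e / 2)⁻¹ :=
            Real.one_sub_inv_le_log_of_pos (by linarith)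
          have h7 : (1 - e / 2)⁻¹ ≤ 2 := by
            rw [inv_le_comm₀ (by linarith) (by norm_num)]
            linarith
          linarith
        have heps0 : 0 ≤ -Real.log (1 - e / 2) := by
          have := Real.log_nonpos (x := 1 - e / 2) (by linarith) (by linarith)
          linarith
        have h8 : X * (((2 * l : ℕ) : ℝ) * (-Real.log (1 - e / 2))) ≤ X * (r1 * L + 2) := by
          apply mul_le_mul_of_nonneg_left _ hX0
          push_cast
          linarith
        have h9 : (0 : ℝ) ≤ r1 * L := by positivity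
        have h10 : X * (r1 * L + 2) ≤ (1 - 23 / 24 * θ) * (r1 * L + 2) :=
          mul_le_mul_of_nonneg_right hX1 (by linarith)
        have h11 := h.hθ
        have h12 : (r1 : ℝ) * (100 * ell) ≤ r1 * (θ * L) :=
          mul_le_mul_of_nonneg_left h11 (by linarith)
        have h13 : (1 : ℝ) * ell ≤ r1 * ell := mul_le_mul_of_nonneg_right hr1 (by linarith)
        have h14 : (r1 : ℝ) * 1 ≤ r1 * ell :=
          mul_le_mul_of_nonneg_left (by linarith) (by linarith)
        nlinarith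

end

theorem nside : S_NSIDE := by
  intro n L ell e θ x p r N q l r1 F1 F2 f h
  have hθ := NC_theta_pos h
  have he := h.he
  have he1 := h.he1
  have hL := h.hL
  have hell := h.hell
  have hell2 := h.hell2
  have hx := h.hx
  have hx1 := h.hx1
  have hθ1 := h.hθ1
  have hN4 : (4 : ℝ) ≤ N := by exact_mod_cast h.hN4
  have hr1 := NC_r1_pos h
  have hr1s := NC_r1_small h
  have hN := NC_N_le h
  have hq1 := h.hq1
  have hq : (q : ℝ) ≤ N / 6 := by
    refine hq1.trans ?_
    have : (1 - x) * (N : ℝ) ≤ 1 * N := mul_le_mul_of_nonneg_right (by linarith) (by linarith)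
    linarith
  have hp := h.hp
  have hn := h.hn
  have hpn : Real.exp (L - ell) * 1001 ≤ n := by
    rw [← hn]
    have e1 : Real.exp L = Real.exp (L - ell) * Real.exp ell := by
      rw [← Real.exp_add]; congr 1; ring
    rw [e1]
    refine mul_le_mul_of_nonneg_left ?_ (Real.exp_pos _).le
    have := Real.add_one_le_exp ell
    linarith
  have hpl : (1 : ℝ) ≤ Real.exp (L - ell) := Real.one_le_exp (by linarith)
  have hF1 := h.hF1
  have hF1n : (F1 : ℝ) ≤ n := by
    rw [← hn]
    exact hF1.trans (Real.exp_le_exp.2 (by linarith))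
  have hf1 : (64 : ℝ) * f * N ^ 2 ≤ F1 := by exact_mod_cast h.hf1
  have hrho : (1 - e / 2) ^ (2 * l) ≤ Real.exp (-(r1 * L)) := by
    have e1 : (1 - e / 2) ^ (2 * l) = Real.exp (((2 * l : ℕ) : ℝ) * Real.log (1 - e / 2)) := by
      rw [Real.exp_nat_mul, Real.exp_log (by linarith)]
    rw [e1]
    apply Real.exp_le_exp.2
    have := h.hl1
    push_cast
    linarith
  have hexpn : Real.exp (-(r1 * L)) * (n : ℝ) ^ r1 = 1 := by
    rw [← hn, ← Real.exp_nat_mul, ← Real.exp_add]
    simp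
  have hrho0 : (0 : ℝ) ≤ (1 - e / 2) ^ (2 * l) := pow_nonneg (by linarith) _
  have hdesc : ∀ k : ℕ, (n.descFactorial k : ℝ) ≤ (n : ℝ) ^ k := fun k => by
    exact_mod_cast Nat.descFactorial_le_pow n k
  have hside0 : (0 : ℝ) ≤ (2 / (F2 : ℝ)) ^ r1 := by positivity
  refine ⟨?_, ?_, ?_, ?_, ?_, ?_, ?_, ?_, ?_, ?_, ?_, ?_, ?_, ?_⟩
  · have : (q : ℝ) < N := by linarith
    exact_mod_cast this
  · have : (2 : ℝ) * q ≤ N := by linarith
    exact_mod_cast this
  · have : (2 : ℝ) * r1 ≤ p := by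
      have : (0 : ℝ) ≤ r1 := Nat.cast_nonneg _
      linarith
    exact_mod_cast this
  · have : (2 : ℝ) * r1 + 2 ≤ n := by
      have : (0 : ℝ) ≤ r1 := Nat.cast_nonneg _
      linarith
    exact_mod_cast this
  · have h2 := h.hF2
    have h3 : Real.exp (L - ell) ≤ Real.exp (L - 3 / 4 * ell) := Real.exp_le_exp.2 (by linarith)
    have : (4 : ℝ) * r1 ≤ F2 := by linarith
    exact_mod_cast this
  · have h2 := h.hF1'
    have h3 := Real.exp_pos (L - ell / 8)
    have : (0 : ℝ) < F1 := by linarith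
    exact_mod_cast this
  · have h2 := h.hr
    have e1 : Real.exp L = Real.exp (L - 3 / 4 * ell) * Real.exp (3 / 4 * ell) := by
      rw [← Real.exp_add]; congr 1; ring
    have h3 := Real.add_one_le_exp (3 / 4 * ell)
    have h4 : Real.exp (L - 3 / 4 * ell) * 4 ≤ n := by
      rw [← hn, e1]
      exact mul_le_mul_of_nonneg_left (by linarith) (Real.exp_pos _).le
    have : (4 : ℝ) * r ≤ n := by linarith
    exact_mod_cast this
  · have : (16 : ℝ) * (f * (2 * N) ^ 2) ≤ F1 := by nlinarith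
    exact_mod_cast this
  · have h2 : (N : ℝ) * 1 ≤ N ^ 2 := by nlinarith
    have h3 : (0 : ℝ) ≤ f := Nat.cast_nonneg _
    have h4 : (f : ℝ) * N ≤ f * N ^ 2 := mul_le_mul_of_nonneg_left (by linarith) h3
    have h5 : (0 : ℝ) ≤ f * N ^ 2 := by positivity
    have : (4 : ℝ) * (f * (2 * N)) ≤ n := by linarith
    exact_mod_cast this
  · have h2 : ((2 : ℝ) * N + 1) ^ 2 ≤ 576 * Real.exp (ell / 2) := by
      have e1 : Real.exp (ell / 2) = Real.exp (ell / 4) ^ 2 := by
        rw [← Real.exp_nat_mul]; congr 1; push_cast; ring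
      rw [e1]
      have h3 : (2 : ℝ) * N + 1 ≤ 24 * Real.exp (ell / 4) := by linarith
      calc ((2 : ℝ) * N + 1) ^ 2 ≤ (24 * Real.exp (ell / 4)) ^ 2 :=
            pow_le_pow_left₀ (by linarith) h3 2
        _ = _ := by ring
    have h3 := h.hF2'
    have h4 := h.hF1'
    have h5 : (8 : ℝ) * ((2 * N + 1) ^ 2 * F2) ≤
        8 * (576 * Real.exp (ell / 2) * (2 * Real.exp (L - 3 / 4 * ell))) := by
      refine mul_le_mul_of_nonneg_left ?_ (by norm_num)
      exact mul_le_mul h2 h3 (Nat.cast_nonneg _) (by positivity)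
    have e2 : Real.exp (ell / 2) * Real.exp (L - 3 / 4 * ell) = Real.exp (L - ell / 4) := by
      rw [← Real.exp_add]; congr 1; ring
    have e3 : Real.exp (L - ell / 8) = Real.exp (L - ell / 4) * Real.exp (ell / 8) := by
      rw [← Real.exp_add]; congr 1; ring
    have h6 : (18432 : ℝ) ≤ Real.exp (ell / 8) := by
      have h7 : (18432 : ℝ) ≤ Real.exp 20 := by
        have h8 : (2 : ℝ) ≤ Real.exp 1 := by
          have := Real.add_one_le_exp (1 : ℝ)
          linarith
        calc (18432 : ℝ) ≤ 2 ^ 20 := by norm_num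
          _ ≤ Real.exp 1 ^ 20 := pow_le_pow_left₀ (by norm_num) h8 20
          _ = Real.exp 20 := by rw [← Real.exp_nat_mul]; norm_num
      exact h7.trans (Real.exp_le_exp.2 (by linarith))
    have h9 : Real.exp (L - ell / 4) * 18432 ≤ Real.exp (L - ell / 8) := by
      rw [e3]
      exact mul_le_mul_of_nonneg_left h6 (Real.exp_pos _).le
    have : (8 : ℝ) * ((2 * N + 1) ^ 2 * F2) ≤ F1 := by
      have e4 : 8 * (576 * Real.exp (ell / 2) * (2 * Real.exp (L - 3 / 4 * ell))) =
          9216 * Real.exp (L - ell / 4) := by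
        rw [← e2]; ring
      linarith
    exact_mod_cast this
  · calc (1 - e / 2) ^ (2 * l) * (n.descFactorial r1 : ℝ) ≤
          Real.exp (-(r1 * L)) * (n : ℝ) ^ r1 :=
          mul_le_mul hrho (hdesc r1) (Nat.cast_nonneg _) (Real.exp_pos _).le
      _ = 1 := hexpn
      _ ≤ 1 := le_rfl
  · have e1 : (1 - e / 2) ^ (4 * l) = ((1 - e / 2) ^ (2 * l)) ^ 2 := by
      rw [← pow_mul]; congr 1; ring
    have e2 : (n : ℝ) ^ (2 * r1) = ((n : ℝ) ^ r1) ^ 2 := by
      rw [← pow_mul]; congr 1; ring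
    calc (1 - e / 2) ^ (4 * l) * (n.descFactorial (2 * r1) : ℝ) ≤
          (Real.exp (-(r1 * L))) ^ 2 * ((n : ℝ) ^ r1) ^ 2 := by
          rw [e1, ← e2]
          exact mul_le_mul (pow_le_pow_left₀ hrho0 hrho 2) (hdesc _) (Nat.cast_nonneg _)
            (by positivity)
      _ = (Real.exp (-(r1 * L)) * (n : ℝ) ^ r1) ^ 2 := by ring
      _ ≤ 1 := by rw [hexpn]; norm_num
  · have := NC_side h (X := xV x) (by unfold xV; positivity) (by
      unfold xV
      nlinarith)
    linarith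
  · have := NC_side h (X := x) hx (by linarith)
    linarith

end Pool.Agent.Helper51.LL
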