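import Pool.Agent.Helper74.LL.GoalsH

set_option autoImplicit false

open LaurentPolynomial Pool.Agent.Helper15.RA Pool.Agent.Helper45.AM Pool.Agent.Helper74.LL

noncomputable section

namespace Pool.Agent.Helper51.LL

section
variable {S W H : Type} [Group W] [Ring H] [Algebra ℤ[T;T⁻¹] H]

theorem ge_self (X : TD S W H) {a c : S} {g : W} {m : ℕ} (hg : g ∈ par X.cs {a, c}) (hm : m ≤ X.α g) :
    X.Ge m g := by
  refine ⟨1, g, 1, {a, c}, Or.inr ⟨a, c, rfl⟩, hg, by simp, ?_, hm⟩
  simp

theorem mul3 (X : TD S W H) {u g v : W}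
    (h : X.cs.length (u * g * v) = X.cs.length u + X.cs.length g + X.cs.length v) :
    X.D.t u * X.D.t g * X.D.t v = X.D.t (u * g * v) := by
  have h1 : X.cs.length (u * g) = X.cs.length u + X.cs.length g := by
    have h2 := X.cs.length_mul_le u g
    have h3 := X.cs.length_mul_le (u * g) v
    omega
  rw [X.D.mul u g h1, X.D.mul (u * g) v (by rw [h, h1])]

/-- left multiplication by a simple reflection, going up -/
theorem tl (X : TD S W H) {i : S} {w : W}
    (h : X.cs.length (X.cs.simple i * w) = X.cs.length w + 1) :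
    X.D.t (X.cs.simple i) * X.D.t w = X.D.t (X.cs.simple i * w) :=
  X.D.mul _ _ (by rw [h, X.cs.length_simple, add_comm])

/-- right multiplication by a simple reflection, going up -/
theorem tr (X : TD S W H) {i : S} {w : W}
    (h : X.cs.length (w * X.cs.simple i) = X.cs.length w + 1) :
    X.D.t w * X.D.t (X.cs.simple i) = X.D.t (w * X.cs.simple i) :=
  X.D.mul _ _ (by rw [h, X.cs.length_simple])

theorem tsq (X : TD S W H) (i : S) : X.D.t (X.cs.simple i) * X.D.t (X.cs.simple i) =
    xi (X.L (X.cs.simple i)) • X.D.t (X.cs.simple i) + 1 := by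
  obtain ⟨h1, -, h2, -⟩ := g_h1 S W H X.M X.cs X.L X.D.toHecke0
  have := h2 i (X.cs.simple i) (by rw [X.cs.simple_mul_simple_self]; simp)
  rw [this, X.cs.simple_mul_simple_self, h1]

end

theorem t (kd1 : KD1) (kd2 : KD2) (k1 : K1) (hwt : HWT) (hw0 : HW0) (rc : RC) (hrl : HRL) : UC := by
  intro S W H _ _ _ X M n a b c x y hId hN0 hN2 hab hac hbc hx hy hcx hcy hn hlast
  obtain ⟨hLg, hL1, hLpos, hLinv, hL⟩ := hwt S W H X
  obtain ⟨hα1, hαs, hα⟩ := hw0 S W H X
  obtain ⟨k2a, k2b, k2c, k2d, -, -, -, -, -, -, k2k⟩ := kd2 S W X.M X.cs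
  obtain ⟨-, -, -, -, -, -, hSZ, hSZl, -, -⟩ := k1 S W X.M X.cs hLg
  have hsymm : ∀ i j, X.M i j = X.M j i := fun i j => X.M.symmetric i j
  have hMac : X.M a c ≠ 2 := fun h => hab (X.mat c a b (by rw [hsymm]; exact h) (by rw [hsymm]; exact hbc))
  have hMab : X.M a b ≠ 2 := fun h => hac (X.mat b a c (by rw [hsymm]; exact h) hbc)
  have hm7 : 7 ≤ X.M a c := hLg.big a c hac hMac
  have hm7b : 7 ≤ X.M a b := hLg.big a b hab hMab
  have hcb : X.cs.simple c * X.cs.simple b = X.cs.simple b * X.cs.simple c := (k2k b c hbc).symm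
  have hbc' : b ≠ c := by
    rintro rfl
    rw [X.M.diagonal] at hbc
    norm_num at hbc
  obtain ⟨⟨hwmem, hwsym, hwinv, hwlen, hww⟩, hz1, hz2, ⟨hwRa, hwRc, hwLa, hwLc⟩, -, hzsm, -⟩ :=
    kd1 S W X.M X.cs a c hac (X.fin a c)
  obtain ⟨-, -, -, -, hfull, -, -, -, hl2, hl3, -⟩ := kd1 S W X.M X.cs a b hab (X.fin a b)
  obtain ⟨hLw6, -, -, hLwc, hLwc', hLz⟩ := hL a c hac
  obtain ⟨-, -, hLaba, -⟩ := hL a b hab
  obtain ⟨-, hLba, -⟩ := hL b a hab.symm
  replace hLaba := hLaba hMab
  replace hLw6 := hLw6 hMac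
  have hαw := (hα a c hac).1
  have hssa : ∀ i, X.cs.simple i * X.cs.simple i = 1 := fun i => X.cs.simple_mul_simple_self i
  -- membership
  have haM : X.cs.simple a ∈ par X.cs {a, c} := Subgroup.subset_closure ⟨a, by simp, rfl⟩
  have hcM : X.cs.simple c ∈ par X.cs {a, c} := Subgroup.subset_closure ⟨c, by simp, rfl⟩
  have haB : X.cs.simple a ∈ par X.cs {a, b} := Subgroup.subset_closure ⟨a, by simp, rfl⟩
  have hbB : X.cs.simple b ∈ par X.cs {a, b} := Subgroup.subset_closure ⟨b, by simp, rfl⟩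
  have gpa := fun P => Pool.Agent.Helper15.AM.k_gpa S W X.M X.cs P
  have gpc := fun P => Pool.Agent.Helper15.AM.k_gpc S W X.M X.cs P
  -- the elements x₅, y₅
  have hxa : X.cs.length (x * X.cs.simple a) = X.cs.length x + 1 := hx a (by simp)
  have hya : X.cs.length (X.cs.simple a * y) = X.cs.length y + 1 := hy a (by simp)
  have hRa : X.cs.IsRightDescent (x * X.cs.simple a) a := by
    show X.cs.length (x * X.cs.simple a * X.cs.simple a) < _
    rw [mul_assoc, hssa, mul_one, hxa]; omega
  have hLa : X.cs.IsLeftDescent (X.cs.simple a * y) a := by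
    show X.cs.length (X.cs.simple a * (X.cs.simple a * y)) < _
    rw [← mul_assoc, hssa, one_mul, hya]; omega
  obtain ⟨⟨x₅, hx5, hx5e, hx5l⟩, -⟩ := k2a a c hac (X.fin a c) _ hRa hcx
  obtain ⟨⟨y₅, hy5, hy5e, hy5l⟩, -⟩ := k2b a c hac (X.fin a c) _ hLa hcy
  set w := w0 X.cs a c with hw
  -- h = w c, k = c w
  have hx' : x = x₅ * w * X.cs.simple a := by
    rw [← hx5e, mul_assoc, hssa, mul_one]
  have hy' : y = X.cs.simple a * w * y₅ := by
    rw [mul_assoc, ← hy5e, ← mul_assoc, hssa, one_mul]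
  have lx5 : ∀ g ∈ par X.cs {a, c}, X.cs.length (x₅ * g) = X.cs.length x₅ + X.cs.length g :=
    fun g hg => (gpa {a, c}).2.2 x₅ hx5 g hg
  have ly5 : ∀ g ∈ par X.cs {a, c}, X.cs.length (g * y₅) = X.cs.length g + X.cs.length y₅ :=
    fun g hg => (gpc {a, c}).2.2.2.2.1 y₅ hy5 g hg
  have hwcl : X.cs.length (w * X.cs.simple c) + 1 = X.M a c := by
    rw [X.cs.isRightDescent_iff.1 hwRc, hwlen]
  have hcwl : X.cs.length (X.cs.simple c * w) + 1 = X.M a c := by
    rw [X.cs.isLeftDescent_iff.1 hwLc, hwlen]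
  have hlx : X.cs.length x + 1 = X.cs.length x₅ + X.M a c := by rw [← hxa, hx5l]
  have hly : X.cs.length y + 1 = X.M a c + X.cs.length y₅ := by rw [← hya, hy5l]
  obtain ⟨rc1, rc2⟩ := rc S W X.M X.cs hLg a b c x₅ y₅ hab hac hbc hx5 hy5 (by rw [← hw, ← hx']; exact hx)
    (by rw [← hw, ← hy']; exact hy)
  rw [← hw] at rc1 rc2
  have hwcM : w * X.cs.simple c ∈ par X.cs {a, c} := mul_mem hwmem hcM
  have hcwM : X.cs.simple c * w ∈ par X.cs {a, c} := mul_mem hcM hwmem
  -- products
  have e1 : X.D.t x * X.D.t (X.cs.simple a) = X.D.t (x₅ * w) := by rw [tr X hxa, hx5e]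
  have e2 : X.D.t (X.cs.simple a) * X.D.t y = X.D.t (w * y₅) := by rw [tl X hya, hy5e]
  have habal : X.cs.length (X.cs.simple a * X.cs.simple b * X.cs.simple a) = 3 := hl3 (by omega)
  have eaba : X.D.t (X.cs.simple a * X.cs.simple b * X.cs.simple a) =
      X.D.t (X.cs.simple a) * X.D.t (X.cs.simple b) * X.D.t (X.cs.simple a) := by
    rw [mul3 X (by rw [habal, X.cs.length_simple, X.cs.length_simple])]
  have e3 : X.D.t x * X.D.t (X.cs.simple a * X.cs.simple b * X.cs.simple a) * X.D.t y =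
      X.D.t (x₅ * w) * (X.D.t (X.cs.simple b) * X.D.t (w * y₅)) := by
    rw [eaba, ← e1, ← e2]; noncomm_ring
  have e4 : X.D.t (x₅ * (w * X.cs.simple c)) * X.D.t (X.cs.simple c) = X.D.t (x₅ * w) := by
    rw [tr X]
    · congr 1
      rw [mul_assoc, mul_assoc, hssa, mul_one]
    · rw [mul_assoc, mul_assoc, hssa, mul_one, lx5 w hwmem, lx5 _ hwcM, hwlen]; omega
  have e5 : X.D.t (X.cs.simple c) * X.D.t (X.cs.simple c * w * y₅) = X.D.t (w * y₅) := by
    rw [tl X]
    · congr 1
      rw [← mul_assoc, ← mul_assoc, hssa, one_mul]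
    · rw [← mul_assoc, ← mul_assoc, hssa, one_mul, ly5 w hwmem, ly5 _ hcwM, hwlen]; omega
  have e6 : X.D.t (X.cs.simple c) * X.D.t (X.cs.simple b) =
      X.D.t (X.cs.simple b) * X.D.t (X.cs.simple c) := by
    have h1 : X.cs.length (X.cs.simple b * X.cs.simple c) = 2 := by
      obtain ⟨-, -, -, -, -, -, -, -, h, -⟩ := kd1 S W X.M X.cs b c hbc' (X.fin b c)
      exact h
    rw [X.D.mul (X.cs.simple b) (X.cs.simple c) (by rw [h1, X.cs.length_simple, X.cs.length_simple]),
      X.D.mul (X.cs.simple c) (X.cs.simple b) (by rw [hcb, h1, X.cs.length_simple, X.cs.length_simple]), hcb]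
  -- reduced products
  have e7 : X.D.t (x₅ * (w * X.cs.simple c)) * X.D.t (X.cs.simple b) * X.D.t (X.cs.simple c * w * y₅) =
      X.D.t (x₅ * (w * X.cs.simple c) * X.cs.simple b * (X.cs.simple c * w * y₅)) := by
    apply mul3
    rw [lx5 _ hwcM, ly5 _ hcwM, X.cs.length_simple, ← mul_assoc]
    omega
  have e8 : X.D.t (x₅ * w) * X.D.t (X.cs.simple b) * X.D.t (X.cs.simple c * w * y₅) =
      X.D.t (x₅ * w * X.cs.simple b * (X.cs.simple c * w * y₅)) := by
    apply mul3
    rw [lx5 _ hwmem, ly5 _ hcwM, X.cs.length_simple, ← mul_assoc, hwlen]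
    omega
  rw [e3, hLaba]
  by_cases hGe : X.Ge (M + 1) w
  · -- LOW
    refine (hrl S W H X M _ a c _ hac hId hGe).1 x₅ hx5 (fun z hz hzw => ?_)
    rw [← hw] at hzw ⊢
    obtain ⟨hz1a, hz1b, hz1c, hz1d⟩ := hz1 z hz
    obtain ⟨hz2a, hz2b⟩ := hz2 z hz
    replace hz1b := hz1b hzw
    replace hz2a := (hz2a hzw).1
    obtain ⟨hLz1, hLz2, hLz3, hLz4, hLz5, hLz6⟩ := hLz z hz hzw
    have hrew : ∀ Z : H, Z = X.D.t (x₅ * z) * (X.D.t (X.cs.simple b) * X.D.t (w * y₅)) →
        ∀ k, X.LP M k Z → k ≤ max 0 ((M : ℤ) - ((2 * X.L (X.cs.simple a) + X.L (X.cs.simple b) : ℕ) : ℤ)) +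
          X.L w - X.L z → X.LP M (max 0 ((M : ℤ) - ((2 * X.L (X.cs.simple a) + X.L (X.cs.simple b) : ℕ) : ℤ)) +
          X.L w - X.L z) (X.D.t (x₅ * z) * (X.D.t (X.cs.simple b) * X.D.t (w * y₅))) := by
      intro Z hZ k hk hle
      rw [← hZ]
      exact hk.mono hle
    have hba : X.cs.length (X.cs.simple b * X.cs.simple a) = 2 := by
      obtain ⟨-, -, -, -, -, -, -, -, h, -⟩ := kd1 S W X.M X.cs b a hab.symm (X.fin b a)
      exact h
    have hbay : X.cs.length (X.cs.simple b * X.cs.simple a * y) = 2 + X.cs.length y := by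
      rw [(gpc {a, b}).2.2.2.2.1 y hy _ (mul_mem hbB haB), hba]
    have e9 : X.D.t (X.cs.simple b) * X.D.t (w * y₅) = X.D.t (X.cs.simple b * X.cs.simple a * y) := by
      rw [← hy5e, tl X, mul_assoc]
      rw [← mul_assoc, hbay, hya]; omega
    by_cases hzh : z = w * X.cs.simple c
    · -- z = h
      refine hrew (X.D.t (x₅ * w * X.cs.simple b * (X.cs.simple c * w * y₅))) ?_ 1 (TD.LP.t M _) ?_
      · rw [hzh, ← e8, ← e4, ← e5]
        calc X.D.t (x₅ * (w * X.cs.simple c)) * X.D.t (X.cs.simple c) * X.D.t (X.cs.simple b) *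
              X.D.t (X.cs.simple c * w * y₅)
            = X.D.t (x₅ * (w * X.cs.simple c)) * (X.D.t (X.cs.simple c) * X.D.t (X.cs.simple b)) *
              X.D.t (X.cs.simple c * w * y₅) := by noncomm_ring
          _ = _ := by rw [e6]; noncomm_ring
      · have := hLpos c
        rw [hzh]
        push_cast
        omega
    by_cases hz3 : X.cs.length z ≤ 3
    · refine hrew _ (by rw [e9]) M (hN0 (x₅ * z) (X.cs.simple b * X.cs.simple a * y) ?_) ?_
      · rw [lx5 z hz, hbay]; omega
      · have h1 := hLz6 hz3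
        have h2 := hLw6 a
        have h3 := hLw6 b
        have h4 := hLw6 c
        push_cast
        omega
    push Not at hz3
    by_cases hza : X.cs.IsRightDescent z a
    · -- a ∈ R(z)
      have hzal : X.cs.length (z * X.cs.simple a) + 1 = X.cs.length z := X.cs.isRightDescent_iff.1 hza
      have hlz : X.cs.length z + 2 ≤ X.M a c := by
        by_contra hcon
        have hlz1 : X.cs.length z + 1 = X.M a c := by omega
        obtain ⟨-, -, -, h1⟩ := hz1 z⁻¹ (inv_mem hz)
        obtain ⟨-, -, h2, -⟩ := hz1 z⁻¹ (inv_mem hz)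
        have h3 : X.cs.length (z⁻¹ * w) = 1 := by
          rw [X.cs.length_inv] at h1; omega
        rcases (hzsm (z⁻¹ * w) (mul_mem (inv_mem hz) hwmem)).1 h3 with h4 | h4
        · have h5 : w = z * X.cs.simple a := by rw [← h4]; group
          have h6 : X.cs.length (z * X.cs.simple a) = X.M a c := by rw [← h5, hwlen]
          omega
        · have h5 : w = z * X.cs.simple c := by rw [← h4]; group
          apply hzh
          rw [h5, mul_assoc, hssa, mul_one]
      have hzaM : z * X.cs.simple a ∈ par X.cs {a, c} := mul_mem hz haM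
      have hu : XR X.cs {a, b} (x₅ * (z * X.cs.simple a)) := by
        intro i hi
        rw [← X.cs.not_isRightDescent_iff]
        rcases hi with rfl | hi
        · rw [k2c {i, c} x₅ (z * X.cs.simple i) i hx5 hzaM (by simp), X.cs.not_isRightDescent_iff,
            mul_assoc, hssa, mul_one]
          omega
        · rw [Set.mem_singleton_iff] at hi
          subst hi
          intro hcon
          have := hSZ a i c x₅ (z * X.cs.simple a) hac hab.symm hbc' hx5 hzaM hcon
          omega
      have hFull : Full X.cs a b (X.cs.simple a * X.cs.simple b * X.cs.simple a) := by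
        rw [hfull]
        exact ⟨mul_mem (mul_mem haB hbB) haB, by rw [habal]; norm_num⟩
      have hN := hN2 a b (x₅ * (z * X.cs.simple a)) _ y hab hu hFull hy (by
        rw [lx5 _ hzaM]; omega)
      rw [hLaba] at hN
      refine hrew _ ?_ _ hN ?_
      · rw [eaba, ← hy5e, ← tl X hya]
        have : X.D.t (x₅ * z) = X.D.t (x₅ * (z * X.cs.simple a)) * X.D.t (X.cs.simple a) := by
          rw [tr X]
          · congr 1
            rw [mul_assoc, mul_assoc, hssa, mul_one]
          · rw [mul_assoc, mul_assoc, hssa, mul_one, lx5 z hz, lx5 _ hzaM]; omega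
        rw [this]
        noncomm_ring
      · push_cast
        omega
    · -- c ∈ R(z)
      have hz0 : z ≠ 1 := by
        rintro rfl
        rw [X.cs.length_one] at hz3
        omega
      have hu : XR X.cs {a, b} (x₅ * z) := by
        intro i hi
        rw [← X.cs.not_isRightDescent_iff]
        rcases hi with rfl | hi
        · rw [k2c {i, c} x₅ z i hx5 hz (by simp)]
          exact hza
        · rw [Set.mem_singleton_iff] at hi
          subst hi
          intro hcon
          have := hSZ a i c x₅ z hac hab.symm hbc' hx5 hz hcon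
          omega
      have hFull : Full X.cs a b (X.cs.simple b * X.cs.simple a) := by
        rw [hfull]
        exact ⟨mul_mem hbB haB, by rw [hba]⟩
      have hN := hlast a b (x₅ * z) _ y hab hu hFull hy hba (by rw [lx5 z hz]; omega)
      rw [hLba] at hN
      refine hrew _ ?_ _ hN ?_
      · rw [← hy5e, ← tl X hya, ← X.D.mul (X.cs.simple b) (X.cs.simple a)
          (by rw [hba, X.cs.length_simple, X.cs.length_simple])]
        noncomm_ring
      · have h1 := hLz2 hzh
        have h2 := hLpos a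
        push_cast
        omega
  · -- HIGH
    have hαM : X.L w ≤ M := by
      by_contra hcon
      exact hGe (ge_self X hwmem (by rw [hαw]; omega))
    have e10 : X.D.t (x₅ * w) * (X.D.t (X.cs.simple b) * X.D.t (w * y₅)) =
        X.D.t (x₅ * (w * X.cs.simple c) * X.cs.simple b * (X.cs.simple c * w * y₅)) +
        xi (X.L (X.cs.simple c)) • X.D.t (x₅ * w * X.cs.simple b * (X.cs.simple c * w * y₅)) := by
      rw [← e7, ← e8]
      calc X.D.t (x₅ * w) * (X.D.t (X.cs.simple b) * X.D.t (w * y₅))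
          = X.D.t (x₅ * (w * X.cs.simple c)) * (X.D.t (X.cs.simple c) * X.D.t (X.cs.simple b)) *
            (X.D.t (X.cs.simple c) * X.D.t (X.cs.simple c * w * y₅)) := by
            rw [← e4, ← e5]; noncomm_ring
        _ = X.D.t (x₅ * (w * X.cs.simple c)) * X.D.t (X.cs.simple b) *
            (X.D.t (X.cs.simple c) * X.D.t (X.cs.simple c)) * X.D.t (X.cs.simple c * w * y₅) := by
            rw [e6]; noncomm_ring
        _ = X.D.t (x₅ * (w * X.cs.simple c)) * X.D.t (X.cs.simple b) *
            X.D.t (X.cs.simple c * w * y₅) + xi (X.L (X.cs.simple c)) •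
            (X.D.t (x₅ * (w * X.cs.simple c)) * (X.D.t (X.cs.simple b) * X.D.t (X.cs.simple c)) *
              X.D.t (X.cs.simple c * w * y₅)) := by
            rw [tsq X c, mul_add, mul_one, add_mul, mul_smul_comm, smul_mul_assoc, add_comm]
            congr 2
            noncomm_ring
        _ = _ := by
            rw [← e6, ← e4]
            congr 2
            noncomm_ring
    rw [e10]
    have h1 := hLw6 a
    have h2 := hLw6 b
    have h3 := hLw6 c
    refine TD.LP.add ((TD.LP.t M _).mono ?_) (TD.LP.smul_xi (TD.LP.t M _) ?_)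
    · push_cast
      omega
    · push_cast
      omega

end Pool.Agent.Helper51.LL
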